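import Pool.Agent.Lib.Pf720nn.NBase

/-!
# Products of invariant functions and delayed martingale differences along polynomial maps
-/

set_option autoImplicit false
set_option linter.unusedSectionVars false

open Finset MeasureTheory Filter Topology
open scoped ENNReal

namespace Pool.Agent.Lib.Pf720nk

open Pool.Agent.Lib.Pf720ae
open Pool.Agent.Lib.Pf720pi (glue doubling)
open Pool.Agent.Lib.Pf720pm (Dio FDep fdep_congr exists_fdep inj₁ inj₂ inj₁_injective
  inj₂_injective comp_inj₁ comp_inj₂ glue_update)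

open Pool.Agent.Lib.Pf720nn

/-- convergence of the multiple averages of a number of functions in `Nf`, with exponents in `Q` and
a number of variables in `K`, of bounded `m`-measurable real functions -/
def PolRN {X G : Type} {mX : MeasurableSpace X} (μ : Measure X) (K Nf : Set ℕ)
    (Q : (κ : Type) → Set ((κ → ℕ) → G)) (W : G → X → X) (m : MeasurableSpace X) : Prop :=
  ∀ (κ : Type) [Fintype κ] [DecidableEq κ] (J : Type) [Fintype J] [DecidableEq J]
    (g : J → (κ → ℕ) → G) (F : J → X → ℝ), Fintype.card κ ∈ K → Fintype.card J ∈ Nf →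
    (∀ j, g j ∈ Q κ) → (∀ j, Measurable[m] (F j)) →
    (∀ j x, |F j x| ≤ 1) → ∀ᵐ x ∂μ, Cvg fun m : κ → ℕ => ∏ j, F j (W (g j m) x)

/-- the admissible numbers of variables and of functions -/
def KN (K Nf : Set ℕ) : Prop :=
  ((∀ v w, 1 ≤ v → v + w ∈ K → w = 0) ∧ ∀ a b, b ∈ Nf → a ≤ b → a ∈ Nf) ∨
    ((∀ v w, 1 ≤ v → v + w ∈ K → v + 2 * w ∈ K) ∧ Nf = Set.univ)

lemma KN.down {K Nf : Set ℕ} (h : KN K Nf) {a b : ℕ} (hb : b ∈ Nf) (hab : a ≤ b) : a ∈ Nf := by
  rcases h with h | h
  · exact h.2 a b hb hab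
  · rw [h.2]
    exact Set.mem_univ _

lemma KN.doub {K Nf : Set ℕ} (h : KN K Nf) {v w : ℕ} (hv : 1 ≤ v) (hvw : v + w ∈ K) :
    v + 2 * w ∈ K := by
  rcases h with h | h
  · have h1 := h.1 v w hv hvw
    subst h1
    exact hvw
  · exact h.1 v w hv hvw

variable {κ : Type} [Fintype κ] [DecidableEq κ]

theorem base_case {G X : Type} [Group G] [Group.IsNilpotent G] {mP Y : MeasurableSpace X}
    {mX : MeasurableSpace X} {μ : Measure X}
    [IsProbabilityMeasure μ] (hP : mP ≤ mX) (hY : Y ≤ mX) (W : G → X → X)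
    (hW1 : ∀ x, W 1 x = x) (hWmul : ∀ a b x, W (a * b) x = W a (W b x))
    (hWmp : ∀ a, MeasurePreserving (W a) μ μ) (hYi : Inv W ⊤ Y)
    {H : ℕ → Subgroup G} {r : ℕ → ℕ} {π : (a : ℕ) → G → Fin (r a) → ℤ} {s : ℕ}
    (hc : ZChain H r π s) (Φ : (a : ℕ) → (Fin (r a) → ℤ) →+ ℝ) (hΦ : ∀ a, Dio (Φ a))
    {p : ℝ} (hp : 0 ≤ p)
    (K Nf : Set ℕ) (hK : KN K Nf)
    (Q : (κ : Type) → Set ((κ → ℕ) → G)) (hQr : RenClosedG Q)
    (hH : PolRN μ K Nf Q W Y) (hκ : Fintype.card κ ∈ K)
    {J : Type} [Fintype J] [DecidableEq J] (hJ : Fintype.card J ∈ Nf)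
    (g : J → (κ → ℕ) → G) (hgQ : ∀ j, g j ∈ Q κ) (hpol : ∀ j, PolG (g j))
    (hg0 : ∀ j, g j 0 = 1) (hg1 : ∀ j, ∃ m, g j m ≠ 1)
    (hne : ∀ i j, i ≠ j → ∃ m, g i m * (g j m)⁻¹ ∉ H s)
    (hdep : ∀ i j l, FDep (g i) l → FDep (g j) l →
      ∃ m t, g i m * (g j (Function.update m l t))⁻¹ ∉ H s)
    (F : J → X → ℝ)
    (hF : ∀ j, (Measurable[Y] (F j) ∧ ∀ x, |F j x| ≤ 1) ∨
      IsMD μ W H (phi π Φ) s mP Y p (F j)) :
    ∀ᵐ x ∂μ, Cvg fun m : κ → ℕ => ∏ j, F j (W (g j m) x) := by
  classical
  set tt : J → Prop := fun j => Measurable[Y] (F j) ∧ ∀ x, |F j x| ≤ 1 with htt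
  by_cases hall : ∀ j, tt j
  · exact hH κ J g F hκ hJ hgQ (fun j => (hall j).1) (fun j => (hall j).2)
  push Not at hall
  obtain ⟨j₀, hj₀⟩ := hall
  have hWm : ∀ a, Measurable (W a) := fun a => (hWmp a).measurable
  have hch := hc.isChain Φ hΦ
  -- the martingale differences
  have hmd : ∀ j : {j // ¬ tt j}, IsMD μ W H (phi π Φ) s mP Y p (F j.1) := fun j =>
    (hF j.1).resolve_left j.2
  have hF1 : ∀ j x, |F j x| ≤ 1 := by
    intro j x
    rcases hF j with h | h
    · exact h.2 x
    · exact h.abs_le x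
  -- visible coordinates
  set vis : κ → Prop := fun l => ∃ j : {j // ¬ tt j}, FDep (g j.1) l with hvis
  have hvisj : ∀ (j : {j // ¬ tt j}) {m m' : κ → ℕ}, (∀ l, vis l → m l = m' l) →
      g j.1 m = g j.1 m' := fun j m m' h => fdep_congr (g j.1) fun l hl => h l ⟨j, hl⟩
  have hnon : Nonempty {l // vis l} := by
    obtain ⟨m₀, hm₀⟩ := hg1 j₀
    obtain ⟨l, hl⟩ : ∃ l, FDep (g j₀) l := by
      refine exists_fdep (m := m₀) (m' := 0) _ ?_
      rw [hg0]
      exact hm₀
    exact ⟨⟨l, ⟨j₀, hj₀⟩, hl⟩⟩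
  -- the exponents of the martingale differences only see the visible coordinates
  have hglue : ∀ (j : {j // ¬ tt j}) (m : κ → ℕ),
      g j.1 (glue vis (fun l => m l.1) 0) = g j.1 m := by
    intro j m
    refine hvisj j fun l hl => ?_
    unfold glue
    rw [dif_pos hl]
  set g' : {j // ¬ tt j} → ({l // vis l} → ℕ) → G := fun j a => g j.1 (glue vis a 0) with hg'
  have hglueadd : ∀ a b : {l // vis l} → ℕ,
      glue vis (a + b) 0 = glue vis a 0 + glue vis b 0 := by
    intro a b
    funext l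
    simp only [Pi.add_apply]
    unfold glue
    split_ifs <;> simp
  have hglue0 : glue vis (0 : {l // vis l} → ℕ) 0 = 0 := by
    funext l
    unfold glue
    split_ifs <;> rfl
  have hpol' : ∀ j, PolG (g' j) := fun j => (hpol j.1).comp0 (fun a => glue vis a 0) hglueadd
  have hg0' : ∀ j, g' j 0 = 1 := by
    intro j
    simp only [hg', hglue0, hg0]
  have hcore : ∀ M₀ : {l // ¬ vis l} → ℕ, ∀ᵐ x ∂μ,
      Tendsto (fun M₁ : {l // vis l} → ℕ => avg M₁ fun m₁ =>
        (∏ j : {j // ¬ tt j}, F j.1 (W (g' j m₁) x)) *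
          avg M₀ fun m₀ => ∏ j : {j // tt j}, F j.1 (W (g j.1 (glue vis m₁ m₀)) x))
        atTop (𝓝 0) := by
    intro M₀
    refine core_sep (fun a b : G => NegA H (phi π Φ) s 0 p (a * b⁻¹)) ?_ ?_
      (fun a => mP.comap (W a) ⊔ PS W H (phi π Φ) s mP Y p a)
      (fun a => PS W H (phi π Φ) s mP Y p a) (fun a => le_sup_right) ?_ ?_ g'
      (fun j l => FDep (g' j) l) ?_ ?_ ?_
      (fun j m₁ x => F j.1 (W (g' j m₁) x)) ?_ ?_ ?_ ?_
      (fun m₁ x => avg M₀ fun m₀ =>
        ∏ j : {j // tt j}, F j.1 (W (g j.1 (glue vis m₁ m₀)) x)) ?_ ?_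
    · intro a b c hab hbc
      have := NegA.mul hch hp hab hbc
      rwa [mul_assoc, inv_mul_cancel_left] at this
    · intro a
      rw [mul_inv_cancel]
      exact not_negA_one hch hp
    · intro a
      exact sup_le ((MeasurableSpace.comap_mono hP).trans (hWm a).comap_le)
        (sup_le hY (gen_le W hWm _ hP))
    · intro a b hab
      exact PS_le hch hp hab
    · rintro ⟨l, j, m, t, hmt⟩
      refine ⟨j, fun l => m l.1, t, ?_⟩
      have h1 : g j.1 (glue vis (fun l => m l.1) 0) = g j.1 m := hglue j m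
      have h2 : g j.1 (glue vis (Function.update (fun l : {l // vis l} => m l.1)
          ⟨l, j, m, t, hmt⟩ t) 0) = g j.1 (Function.update m l t) := by
        rw [glue_update]
        refine hvisj j fun l' hl' => ?_
        by_cases h : l' = l
        · subst h
          simp
        · rw [Function.update_of_ne h, Function.update_of_ne h]
          unfold glue
          rw [dif_pos hl']
      simp only [hg']
      rw [h1, h2]
      exact hmt
    · -- distinct
      intro i j hij
      refine close_of hc Φ hΦ g' hpol' hg0' hp i j ?_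
      obtain ⟨m, hm⟩ := hne i.1 j.1 (fun h => hij (Subtype.ext h))
      refine ⟨fun l => m l.1, ?_⟩
      simp only [hg']
      rw [hglue, hglue]
      exact hm
    · intro i j l hi hj
      have hfd : ∀ (j : {j // ¬ tt j}), FDep (g' j) l → FDep (g j.1) l.1 := by
        rintro j ⟨m, t, hmt⟩
        refine ⟨glue vis m 0, t, ?_⟩
        rw [← glue_update]
        exact hmt
      refine pair_bound hc Φ hΦ g' hpol' hg0' hp i j l ?_
      obtain ⟨m, t, hm⟩ := hdep i.1 j.1 l.1 (hfd i hi) (hfd j hj)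
      refine ⟨fun l => m l.1, t, ?_⟩
      have h2 : g j.1 (glue vis (Function.update (fun l : {l // vis l} => m l.1) l t) 0) =
          g j.1 (Function.update m l.1 t) := by
        rw [glue_update]
        refine hvisj j fun l' hl' => ?_
        by_cases h : l' = l.1
        · subst h
          simp
        · rw [Function.update_of_ne h, Function.update_of_ne h]
          unfold glue
          rw [dif_pos hl']
      simp only [hg']
      rw [hglue, h2]
      exact hm
    · intro j m x
      exact hF1 _ _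
    · intro j m
      exact md_meas hWmul hYi (hmd j) (g' j m)
    · intro j m h hh hh1
      exact md_orth hP hY hW1 hWmul hWmp hYi (hmd j) (g' j m) h hh hh1
    · intro j l hl m t x
      have h0 : ∀ (m : {l // vis l} → ℕ) t, g' j (Function.update m l t) = g' j m := by
        intro m t
        by_contra h
        exact hl ⟨m, t, h⟩
      simp only [h0]
    · intro m x
      exact abs_avg_le_of_le zero_le_one fun m₀ => abs_prod_le_one _ _ fun j => hF1 _ _
    · intro m a
      have h1 : Measurable[Y] fun x => avg M₀ fun m₀ =>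
          ∏ j : {j // tt j}, F j.1 (W (g j.1 (glue vis m m₀)) x) := by
        unfold avg
        refine Measurable.const_mul (Finset.measurable_fun_sum _ fun m₀ _ => ?_) _
        refine Finset.measurable_fun_prod _ fun j _ => ?_
        exact inv_meas hYi j.2.1 _
      exact h1.mono (le_PS a) le_rfl
  -- the doubled family
  have hcard : Fintype.card ({l // vis l} ⊕ ({l // ¬ vis l} ⊕ {l // ¬ vis l})) ∈ K := by
    rw [Fintype.card_sum, Fintype.card_sum, ← two_mul]
    refine hK.doub (Fintype.card_pos) ?_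
    have := Fintype.card_subtype_compl vis
    have h2 : Fintype.card {l // vis l} ≤ Fintype.card κ := Fintype.card_subtype_le _
    rw [this, Nat.add_sub_cancel' h2]
    exact hκ
  have hdbl : ∀ᵐ x ∂μ, Cvg fun m : {l // vis l} ⊕ ({l // ¬ vis l} ⊕ {l // ¬ vis l}) → ℕ =>
      (∏ j : {j // tt j}, F j.1 (W (g j.1 fun l => m (inj₁ vis l)) x)) *
        ∏ j : {j // tt j}, F j.1 (W (g j.1 fun l => m (inj₂ vis l)) x) := by
    rcases hK with hK1 | hK2
    · -- all coordinates are visible
      have hvisall : ∀ l, vis l := by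
        intro l
        by_contra hl
        have h1 : Fintype.card {l // vis l} + Fintype.card {l // ¬ vis l} ∈ K := by
          have h2 := Fintype.card_subtype_compl vis
          have h3 : Fintype.card {l // vis l} ≤ Fintype.card κ := Fintype.card_subtype_le _
          rw [h2, Nat.add_sub_cancel' h3]
          exact hκ
        have h4 := hK1.1 _ _ Fintype.card_pos h1
        rw [Fintype.card_eq_zero_iff] at h4
        exact h4.false ⟨l, hl⟩
      have hinj : ∀ l, inj₂ vis l = inj₁ vis l := by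
        intro l
        unfold inj₁ inj₂
        rw [dif_pos (hvisall l), dif_pos (hvisall l)]
      have h1 := hH ({l // vis l} ⊕ ({l // ¬ vis l} ⊕ {l // ¬ vis l})) {j // tt j}
        (fun j m => g j.1 fun l => m (inj₁ vis l)) (fun j x => F j.1 x * F j.1 x) hcard
        (hK1.2 _ _ hJ (Fintype.card_subtype_le _))
        (fun j => hQr _ _ _ (inj₁_injective vis) _ (hgQ _))
        (fun j => j.2.1.mul j.2.1) (fun j x => by
          rw [abs_mul]
          exact mul_le_one₀ (hF1 _ _) (abs_nonneg _) (hF1 _ _))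
      filter_upwards [h1] with x hx
      refine hx.congr fun m => ?_
      simp only [hinj]
      rw [← Finset.prod_mul_distrib]
    · have h1 := hH ({l // vis l} ⊕ ({l // ¬ vis l} ⊕ {l // ¬ vis l}))
        ({j // tt j} ⊕ {j // tt j})
        (Sum.elim
          (fun j m => g j.1 fun l => m (inj₁ vis l))
          (fun j m => g j.1 fun l => m (inj₂ vis l)))
        (Sum.elim (fun j => F j.1) (fun j => F j.1)) hcard (by rw [hK2.2]; exact Set.mem_univ _)
        (by
          rintro (j | j)
          · exact hQr _ _ _ (inj₁_injective vis) _ (hgQ _)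
          · exact hQr _ _ _ (inj₂_injective vis) _ (hgQ _))
        (by rintro (j | j) <;> exact j.2.1) (by rintro (j | j) <;> exact j.2.2)
      filter_upwards [h1] with x hx
      refine hx.congr fun m => ?_
      rw [Fintype.prod_sum_type]
      rfl
  filter_upwards [ae_all_iff.2 hcore, hdbl] with x hx1 hx2
  have h0 := doubling vis (fun m => ∏ j : {j // ¬ tt j}, F j.1 (W (g j.1 m) x))
    (fun m => ∏ j : {j // tt j}, F j.1 (W (g j.1 m) x))
    (fun m => abs_prod_le_one _ _ fun j => hF1 _ _)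
    (fun m => abs_prod_le_one _ _ fun j => hF1 _ _) ?_ (fun M₀ _ => hx1 M₀) ?_
  · refine ⟨0, h0.congr fun M => ?_⟩
    refine avg_congr fun m _ => ?_
    rw [mul_comm]
    exact Fintype.prod_subtype_mul_prod_subtype tt fun j => F j (W (g j m) x)
  · intro m m' hmm
    refine Finset.prod_congr rfl fun j _ => ?_
    rw [hvisj j hmm]
  · refine hx2.congr fun m => ?_
    congr 1
    · refine Finset.prod_congr rfl fun j _ => ?_
      rw [comp_inj₁]
    · refine Finset.prod_congr rfl fun j _ => ?_
      rw [comp_inj₂]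

end Pool.Agent.Lib.Pf720nk
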