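import Pool.Agent.Lib.Pf720zr.Final
import Pool.Agent.Lib.Pf720nk.NFinal

/-!
# The reduction to zero entropy for a given number of functions
-/

set_option autoImplicit false
set_option linter.unusedSectionVars false

open Finset MeasureTheory Filter Topology
open scoped ENNReal

namespace Pool.Agent.Lib.Pf720nk

open Pool.Agent.Lib.Pf720ae
open Pool.Agent.Lib.Pf720nn hiding clos_one clos_part clos_all base_case polRG_of_polC
  polC_of_real real_main nil_reduction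
open Pool.Agent.Lib.Pf720np (ZeroEnt joinEntropy gw gens pact pact_gw pact_mul pact_mp
  countable_closure)
open Pool.Agent.Lib.Pf720pm (PolC RenC polC_bot)
open Pool.Agent.Lib.Pf720zr (MPT ForZero pin pin_le pin_mpt pin_zero limBd_zero)

lemma kn_of {K : Set ℕ} {N : ℕ∞} (h : K = {1} ∨ (K = Set.univ ∧ N = ⊤)) :
    (K = {1} ∧ ∀ a b, b ∈ {n : ℕ | (n : ℕ∞) ≤ N} → a ≤ b → a ∈ {n : ℕ | (n : ℕ∞) ≤ N}) ∨
      (K = Set.univ ∧ {n : ℕ | (n : ℕ∞) ≤ N} = Set.univ) := by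
  rcases h with h | ⟨h, h2⟩
  · refine Or.inl ⟨h, fun a b hb hab => ?_⟩
    have h3 : (b : ℕ∞) ≤ N := hb
    have h4 : (a : ℕ∞) ≤ b := Nat.cast_le.2 hab
    exact h4.trans h3
  · refine Or.inr ⟨h, Set.eq_univ_of_forall fun n => ?_⟩
    have h3 : (n : ℕ∞) ≤ N := by rw [h2]; exact le_top
    exact h3

lemma one_mem_of {N : ℕ∞} (h : 1 ≤ N) : 1 ∈ {n : ℕ | (n : ℕ∞) ≤ N} := by
  have h3 : ((1 : ℕ) : ℕ∞) ≤ N := by simpa using h
  exact h3

/-- convergence of the multiple averages contains that of the linear ones -/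
lemma linC_of_polN {X : Type} {mX : MeasurableSpace X} {μ : Measure X} [IsProbabilityMeasure μ]
    {d : ℕ} (T : Fin d → Equiv.Perm X) (K Nf : Set ℕ) (h1N : 1 ∈ Nf)
    (Q : (k : ℕ) → Set (Fin d → MvPolynomial (Fin k) ℤ)) (h : PolN μ T K Nf Q mX) {k : ℕ}
    (hk : k ∈ K) {P : Fin d → MvPolynomial (Fin k) ℤ} (hP : P ∈ Q k) : LinC μ T P := by
  intro f hf
  have h1 := h k hk 1 h1N (fun _ => P) (fun _ => f) (fun _ => hP) (fun _ => ⟨hf, hf.1⟩)
  filter_upwards [h1] with x hx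
  obtain ⟨L, hL⟩ := hx
  refine ⟨L, hL.congr fun M => ?_⟩
  congr 1
  refine Finset.sum_congr rfl fun m _ => ?_
  simp

section pinsker

variable {X : Type} {mX : MeasurableSpace X} {μ : Measure X} {d : ℕ} {T : Fin d → Equiv.Perm X}

/-- convergence on the factor of zero entropy -/
lemma polN_pin [IsProbabilityMeasure μ] (hT : MPT μ T) (K Nf : Set ℕ)
    (Q : (k : ℕ) → Set (Fin d → MvPolynomial (Fin k) ℤ))
    (h : @PolN X (pin μ T) (μ.trim (pin_le μ T)) d T K Nf Q (pin μ T)) :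
    PolN μ T K Nf Q (pin μ T) := by
  intro k hk n hn P f hPQ hf
  choose hf1 g hg hfg using hf
  have hgm : ∀ j, MemLp (g j) ⊤ μ := fun j => (memLp_congr_ae (hfg j)).1 (hf1 j)
  have h1 := h k hk n hn P g hPQ fun j => ⟨?_, (hg j).aestronglyMeasurable⟩
  · have h2 : ∀ᵐ x ∂μ, ∀ j, ∀ m : Fin k → ℕ, f j (pw T (fun i => MvPolynomial.eval
        (fun l => (m l : ℤ)) (P j i)) x) = g j (pw T (fun i => MvPolynomial.eval
        (fun l => (m l : ℤ)) (P j i)) x) := by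
      rw [ae_all_iff]
      intro j
      rw [ae_all_iff]
      intro m
      exact (mp_pw T hT _).quasiMeasurePreserving.ae_eq_comp (hfg j)
    filter_upwards [ae_of_ae_trim (pin_le μ T) h1, h2] with x hx hx2
    obtain ⟨L, hL⟩ := hx
    refine ⟨L, hL.congr fun M => ?_⟩
    congr 1
    exact Finset.sum_congr rfl fun m _ => Finset.prod_congr rfl fun j _ => (hx2 j m).symm
  · refine ⟨(hg j).aestronglyMeasurable, ?_⟩
    rw [eLpNorm_trim (pin_le μ T) (hg j)]
    exact (hgm j).2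

end pinsker

/-- the main theorem: the linear averages of the non-separated tuples converge for `T` or for all
zero entropy systems with the same relations -/
theorem zn_iff {X : Type} (𝒩 : MeasurableSpace X) {mX : MeasurableSpace X} {μ : Measure X}
    [IsProbabilityMeasure μ] {d : ℕ} (T : Fin d → Equiv.Perm X) (hT : MPT μ T)
    (hG : Group.IsNilpotent (Subgroup.closure (Set.range T)))
    (h𝒩 : ∀ A : Set X, MeasurableSet A → ZeroEnt μ (pact T) A →
      ∃ B, MeasurableSet[𝒩] B ∧ A =ᵐ[μ] B)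
    (K Nf : Set ℕ) (hK : (K = {1} ∧ ∀ a b, b ∈ Nf → a ≤ b → a ∈ Nf) ∨ (K = Set.univ ∧
      Nf = Set.univ)) (h1N : 1 ∈ Nf)
    (Q : (k : ℕ) → Set (Fin d → MvPolynomial (Fin k) ℤ)) (hQ1 : RenC Q)
    (hQ2 : (∀ g : Subgroup.closure (Set.range T), ∀ n : ℕ, 0 < n → g ^ n = 1 → g = 1) ∨ SubC Q) :
    PolN μ T K Nf Q mX ↔ (∀ k ∈ K, ∀ P ∈ Q k, Sep T P ∨ LinC μ T P ∨
      ForZero T fun _ _ ν S => LinC ν S P) ∧ PolN μ T K Nf Q 𝒩 := by
  constructor
  · intro h
    exact ⟨fun k hk P hP => Or.inr (Or.inl (linC_of_polN T K Nf h1N Q h hk hP)),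
      fun k hk n hn q f hqQ hf => h k hk n hn q f hqQ fun j => ⟨(hf j).1, (hf j).1.1⟩⟩
  · rintro ⟨hlin, h2⟩
    refine (nil_reduction 𝒩 T hT hG h𝒩 K Nf hK Q hQ1 hQ2 fun k hk P hP => ?_).2 h2
    rcases hlin k hk P hP with h | h | h
    · exact limBd_of_maxBd (fun m => (pact_mp T hT _).measurable) (maxBd_sep T hT P h)
    · exact limBd_of_linC T hT P h
    · exact limBd_zero T hT hG P h

/-- zero entropy suffices -/
theorem zn_main {X : Type} {mX : MeasurableSpace X} {μ : Measure X}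
    [IsProbabilityMeasure μ] {d : ℕ} (T : Fin d → Equiv.Perm X) (hT : MPT μ T)
    (hG : Group.IsNilpotent (Subgroup.closure (Set.range T)))
    (K Nf : Set ℕ) (hK : (K = {1} ∧ ∀ a b, b ∈ Nf → a ≤ b → a ∈ Nf) ∨ (K = Set.univ ∧
      Nf = Set.univ)) (h1N : 1 ∈ Nf)
    (Q : (k : ℕ) → Set (Fin d → MvPolynomial (Fin k) ℤ)) (hQ1 : RenC Q)
    (hQ2 : (∀ g : Subgroup.closure (Set.range T), ∀ n : ℕ, 0 < n → g ^ n = 1 → g = 1) ∨ SubC Q)
    (h : ForZero T fun _ mY ν S => @PolN _ mY ν d S K Nf Q mY) : PolN μ T K Nf Q mX := by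
  rw [zn_iff (pin μ T) T hT hG (fun A hA hA0 => ⟨A, MeasurableSpace.measurableSet_generateFrom
    ⟨hA, hA0⟩, ae_eq_refl _⟩) K Nf hK h1N Q hQ1 hQ2]
  refine ⟨fun k hk P hP => Or.inr (Or.inr ?_), ?_⟩
  · intro Y mY ν hν S hS hrel hz
    exact linC_of_polN S K Nf h1N Q (h Y mY ν hν S hS hrel hz) hk hP
  · refine polN_pin hT K Nf Q (h X (pin μ T) (μ.trim (pin_le μ T)) ?_ T (pin_mpt hT) ?_ ?_)
    · refine @IsProbabilityMeasure.mk X (pin μ T) _ ?_
      rw [trim_measurableSet_eq (pin_le μ T) MeasurableSet.univ]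
      exact measure_univ
    · exact fun v => Iff.rfl
    · exact fun A hA => pin_zero hT hG hA

end Pool.Agent.Lib.Pf720nk
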